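import Pool.Agent.Helper72.GP.GoalsB
import Pool.Agent.Helper85.BL.Basic

/-!
# Project GP, packet FAC: pigeonhole over the irreducible factors
-/

set_option autoImplicit false

namespace Pool.Agent.Helper16.GP

open Finset Polynomial Pool.Agent.Helper72.GP Pool.Agent.Helper85.BL
open scoped Polynomial.Bivariate Classical

noncomputable section

lemma evr_mul (F G : ℝ[X][Y]) (x y : ℝ) : evr (F * G) x y = evr F x y * evr G x y := by
  unfold evr
  rw [evalEval_mul]

lemma evr_unit {F : ℝ[X][Y]} (h : IsUnit F) (x y : ℝ) : evr F x y ≠ 0 := by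
  obtain ⟨G, hG⟩ := h.exists_right_inv
  intro h0
  have h1 := evr_mul F G x y
  rw [hG, h0, zero_mul] at h1
  unfold evr at h1
  rw [evalEval_one] at h1
  exact one_ne_zero h1

lemma fac_aux : ∀ (m : ℕ) (F : ℝ[X][Y]) (A : Finset (ℝ × ℝ)), dt F = m → F ≠ 0 → A.Nonempty →
    (∀ p ∈ A, evr F p.1 p.2 = 0) →
    ∃ f : ℝ[X][Y], Irreducible f ∧ f ∣ F ∧
      A.card ≤ m * (A.filter (fun p => evr f p.1 p.2 = 0)).card := by
  intro m
  induction m using Nat.strong_induction_on with
  | _ m ih =>
    intro F A hm hF hA hz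
    have hu : ¬ IsUnit F := by
      intro hu
      obtain ⟨p, hp⟩ := hA
      exact evr_unit hu _ _ (hz p hp)
    obtain ⟨g, hg, h, hh⟩ := WfDvdMonoid.exists_irreducible_factor hu hF
    have hg0 : g ≠ 0 := hg.ne_zero
    have hh0 : h ≠ 0 := by
      rintro rfl
      rw [mul_zero] at hh
      exact hF hh
    have hdt : dt F = dt g + dt h := by rw [hh, dt_mul hg0 hh0]
    have hg1 : 1 ≤ dt g := dt_pos hg0 hg.not_isUnit
    by_cases hcase : A.card ≤ m * (A.filter (fun p => evr g p.1 p.2 = 0)).card
    · exact ⟨g, hg, ⟨h, hh⟩, hcase⟩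
    · push Not at hcase
      set A' := A.filter (fun p => ¬ evr g p.1 p.2 = 0) with hA'
      have hsplit : (A.filter (fun p => evr g p.1 p.2 = 0)).card + A'.card = A.card :=
        Finset.card_filter_add_card_filter_not _
      have hmpos : 1 ≤ m := by omega
      have hle : (A.filter (fun p => evr g p.1 p.2 = 0)).card ≤
          m * (A.filter (fun p => evr g p.1 p.2 = 0)).card := Nat.le_mul_of_pos_left _ hmpos
      have hne : A'.Nonempty := by
        rw [← Finset.card_pos]
        omega
      have hz' : ∀ p ∈ A', evr h p.1 p.2 = 0 := by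
        intro p hp
        rw [hA', mem_filter] at hp
        have h1 := hz p hp.1
        rw [hh, evr_mul] at h1
        exact (mul_eq_zero.1 h1).resolve_left hp.2
      obtain ⟨f, hf, hfh, hcard⟩ := ih (dt h) (by omega) h A' rfl hh0 hne hz'
      refine ⟨f, hf, hfh.trans ⟨g, by rw [hh, mul_comm]⟩, ?_⟩
      have hsub : (A'.filter (fun p => evr f p.1 p.2 = 0)).card ≤
          (A.filter (fun p => evr f p.1 p.2 = 0)).card := by
        refine Finset.card_le_card ?_
        intro p hp
        rw [mem_filter, hA', mem_filter] at hp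
        exact mem_filter.2 ⟨hp.1.1, hp.2⟩
      set a := A.card
      set b := (A.filter (fun p => evr g p.1 p.2 = 0)).card
      set c := A'.card
      set u := (A.filter (fun p => evr f p.1 p.2 = 0)).card
      set u' := (A'.filter (fun p => evr f p.1 p.2 = 0)).card
      have h1 : c ≤ (m - 1) * u := by
        refine hcard.trans ?_
        exact Nat.mul_le_mul (by omega) hsub
      obtain ⟨m', rfl⟩ : ∃ m', m = m' + 1 := ⟨m - 1, by omega⟩
      rw [Nat.add_sub_cancel] at h1
      -- b + c = a, (m'+1) b < a, c ≤ m' u, c > 0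
      have hc : 0 < c := Finset.card_pos.2 hne
      have hm' : 0 < m' := by
        rcases Nat.eq_zero_or_pos m' with h0 | h0
        · rw [h0, zero_mul] at h1; omega
        · exact h0
      -- m' a < (m'+1) c
      have h2 : m' * a < (m' + 1) * c := by
        have h3 : (m' + 1) * a = (m' + 1) * b + (m' + 1) * c := by rw [← hsplit]; ring
        have h4 : (m' + 1) * a = m' * a + a := by ring
        omega
      have h3 : (m' + 1) * c ≤ (m' + 1) * (m' * u) := Nat.mul_le_mul_left _ h1
      have h4 : m' * a < m' * ((m' + 1) * u) := by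
        calc m' * a < (m' + 1) * c := h2
          _ ≤ (m' + 1) * (m' * u) := h3
          _ = m' * ((m' + 1) * u) := by ring
      exact (Nat.lt_of_mul_lt_mul_left h4).le

theorem fac : FAC := by
  intro d F A hd hF hB hA hz
  obtain ⟨f, hf, hfF, hcard⟩ := fac_aux (dt F) F A rfl hF hA hz
  refine ⟨f, hf, BD_of_dvd hF hfF hB, hcard.trans ?_⟩
  exact Nat.mul_le_mul_right _ (BD.dt_le hB)

end

end Pool.Agent.Helper16.GP
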