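import Pool.Agent.Helper89.GP.GoalsA

/-!
# GP-QFK
-/

namespace Pool.Agent.Helper16.GP

open Finset Pool.Agent.Helper89.GP

/-- The partial exponential sum. -/
noncomputable def es (k : ℕ) (u : ℝ) : ℝ := ∑ j ∈ range k, u ^ j / (j.factorial : ℝ)

lemma es_succ (k : ℕ) (u : ℝ) : es (k + 1) u = es k u + u ^ k / (k.factorial : ℝ) := by
  unfold es
  rw [sum_range_succ]

lemma es_nonneg (k : ℕ) {u : ℝ} (hu : 0 ≤ u) : 0 ≤ es k u := by
  unfold es
  exact sum_nonneg fun j _ => by positivity

lemma es_zero (k : ℕ) : es (k + 1) 0 = 1 := by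
  induction k with
  | zero => simp [es]
  | succ k ih => rw [es_succ, ih]; simp

lemma es_deriv (k : ℕ) (u : ℝ) : HasDerivAt (es (k + 1)) (es k u) u := by
  induction k with
  | zero =>
    have h : es (0 + 1) = fun _ => (1 : ℝ) := by
      funext u
      simp [es]
    rw [h]
    simpa [es] using hasDerivAt_const u (1 : ℝ)
  | succ k ih =>
    have h : es (k + 1 + 1) = fun u => es (k + 1) u + u ^ (k + 1) / ((k + 1).factorial : ℝ) := by
      funext u
      rw [es_succ]
    rw [h, es_succ k u]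
    have h1 := (hasDerivAt_pow (k + 1) u).div_const ((k + 1).factorial : ℝ)
    refine (ih.add h1).congr_deriv ?_
    congr 1
    rw [Nat.factorial_succ]
    push_cast
    have h2 : ((k : ℝ) + 1) ≠ 0 := by positivity
    have h3 : (k.factorial : ℝ) ≠ 0 := by positivity
    field_simp

lemma anti_deriv (k : ℕ) (u : ℝ) : HasDerivAt (fun u => -(Real.exp (-u) * es (k + 1) u))
    (Real.exp (-u) * (u ^ k / (k.factorial : ℝ))) u := by
  have h1 : HasDerivAt (fun u : ℝ => Real.exp (-u)) (-Real.exp (-u)) u := by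
    have := (hasDerivAt_id u).neg.exp
    simpa using this
  refine (h1.mul (es_deriv k u)).neg.congr_deriv ?_
  rw [es_succ]
  ring

lemma dd (τ : ℝ) (hτ : 0 ≤ τ) (k : ℕ) :
    0 ≤ τ ^ k / (k.factorial : ℝ) - (2 + τ) * es (k + 1) τ + ((k : ℝ) + 1) * es (k + 2) τ := by
  induction k with
  | zero =>
    simp only [es, sum_range_succ, Nat.factorial]
    norm_num
    linarith
  | succ k ih =>
    have h1 : es (k + 1 + 1) τ = es (k + 1) τ + τ ^ (k + 1) / ((k + 1).factorial : ℝ) :=
      es_succ _ _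
    have h2 : es (k + 1 + 2) τ = es (k + 1 + 1) τ + τ ^ (k + 2) / ((k + 2).factorial : ℝ) :=
      es_succ _ _
    have h0 : es (k + 1) τ = es k τ + τ ^ k / (k.factorial : ℝ) := es_succ _ _
    have h3 : es (k + 2) τ = es (k + 1 + 1) τ := rfl
    have h4 : ((k : ℝ) + 1 + 1) * (τ ^ (k + 2) / ((k + 2).factorial : ℝ)) =
        τ * (τ ^ (k + 1) / ((k + 1).factorial : ℝ)) := by
      rw [Nat.factorial_succ (k + 1)]
      push_cast
      have h2 : ((k : ℝ) + 1 + 1) ≠ 0 := by positivity
      have h3 : ((k + 1).factorial : ℝ) ≠ 0 := by positivity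
      field_simp
      ring
    have h5 := es_nonneg k hτ
    rw [h3] at ih
    rw [h2]
    push_cast
    rw [mul_add, h4]
    rw [h1] at ih ⊢
    rw [h0] at ih ⊢
    nlinarith

theorem qfk : QfkStmt := by
  intro k τ hτ
  have hint : ∫ u in (0 : ℝ)..τ, (2 + τ - u) * Real.exp (-u) * (u ^ k / (k.factorial : ℝ)) =
      ((2 + τ) * (-(Real.exp (-τ) * es (k + 1) τ)) -
        ((k : ℝ) + 1) * (-(Real.exp (-τ) * es (k + 2) τ))) -
      ((2 + τ) * (-(Real.exp (-0) * es (k + 1) 0)) -
        ((k : ℝ) + 1) * (-(Real.exp (-0) * es (k + 2) 0))) := by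
    apply intervalIntegral.integral_eq_sub_of_hasDerivAt
      (f := fun u => (2 + τ) * (-(Real.exp (-u) * es (k + 1) u)) -
        ((k : ℝ) + 1) * (-(Real.exp (-u) * es (k + 2) u)))
    · intro u _
      refine (((anti_deriv k u).const_mul (2 + τ)).sub
        ((anti_deriv (k + 1) u).const_mul ((k : ℝ) + 1))).congr_deriv ?_
      rw [Nat.factorial_succ]
      push_cast
      have h2 : ((k : ℝ) + 1) ≠ 0 := by positivity
      have h3 : (k.factorial : ℝ) ≠ 0 := by positivity
      field_simp
      ring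
    · apply Continuous.intervalIntegrable
      fun_prop
  rw [max_le_iff]
  constructor
  · rw [hint, es_zero, es_zero]
    have h1 := mul_nonneg (Real.exp_pos (-τ)).le (dd τ hτ k)
    rw [neg_zero, Real.exp_zero, mul_div_assoc]
    nlinarith
  · have h1 : 0 ≤ ∫ u in (0 : ℝ)..τ, (2 + τ - u) * Real.exp (-u) *
        (u ^ k / (k.factorial : ℝ)) := by
      apply intervalIntegral.integral_nonneg hτ
      intro u hu
      have := hu.1
      have := hu.2
      have : 0 ≤ 2 + τ - u := by linarith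
      positivity
    have h2 : 0 ≤ Real.exp (-τ) * τ ^ k / (k.factorial : ℝ) := by positivity
    linarith

end Pool.Agent.Helper16.GP
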